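import Mathlib
import Pool.Agent.H710R2.DP.Defs
import Pool.Agent.H711R2.KG.Props
import Pool.Agent.H710R2.DP.FTasks

/-!
`F_trace`: unique averaging constants give a tracial state with the Dixmier property.
-/

open scoped ComplexOrder InnerProductSpace ComplexConjugate ComplexStarModule
open Finset

noncomputable section

namespace H710R2.DP

open H759R2.Kad

namespace ZF3

section av

variable {B : Type} [CStarAlgebra B]

/-- The average of conjugates over a finite type. -/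
def av {ι : Type} [Fintype ι] (g : ι → unitary B) : B →ₗ[ℂ] B where
  toFun x := ((Fintype.card ι : ℂ))⁻¹ • ∑ k, (g k : B) * x * star (g k : B)
  map_add' x y := by
    simp only [mul_add, add_mul, Finset.sum_add_distrib, smul_add]
  map_smul' c x := by
    simp only [mul_smul_comm, smul_mul_assoc, ← Finset.smul_sum, RingHom.id_apply]
    rw [smul_comm]

theorem av_apply {ι : Type} [Fintype ι] (g : ι → unitary B) (x : B) :
    av g x = ((Fintype.card ι : ℂ))⁻¹ • ∑ k, (g k : B) * x * star (g k : B) := rfl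

/-- `T` is an average of unitary conjugations. -/
def IsAv (T : B →ₗ[ℂ] B) : Prop :=
  ∃ (ι : Type) (_ : Fintype ι) (_ : Nonempty ι) (g : ι → unitary B), T = av g

theorem IsAv.fin {T : B →ₗ[ℂ] B} (hT : IsAv T) : ∃ (N : ℕ) (g : Fin (N + 1) → unitary B),
    ∀ x, T x = ((N + 1 : ℂ))⁻¹ • ∑ k, (g k : B) * x * star (g k : B) := by
  obtain ⟨ι, _, _, g, rfl⟩ := hT
  have hc : 0 < Fintype.card ι := Fintype.card_pos
  obtain ⟨N, hN⟩ : ∃ N, Fintype.card ι = N + 1 := ⟨Fintype.card ι - 1, by omega⟩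
  let e : Fin (N + 1) ≃ ι := (Fintype.equivFinOfCardEq hN).symm
  refine ⟨N, fun k => g (e k), fun x => ?_⟩
  rw [av_apply, hN]
  push_cast
  congr 1
  exact (e.sum_comp fun k => (g k : B) * x * star (g k : B)).symm

theorem isAv_fin (N : ℕ) (g : Fin (N + 1) → unitary B) : IsAv (av g) :=
  ⟨Fin (N + 1), inferInstance, inferInstance, g, rfl⟩

theorem av_fin_apply (N : ℕ) (g : Fin (N + 1) → unitary B) (x : B) :
    av g x = ((N + 1 : ℂ))⁻¹ • ∑ k, (g k : B) * x * star (g k : B) := by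
  rw [av_apply, Fintype.card_fin]
  push_cast
  rfl

theorem IsAv.comp {S T : B →ₗ[ℂ] B} (hS : IsAv S) (hT : IsAv T) : IsAv (S ∘ₗ T) := by
  obtain ⟨ι, _, _, g, rfl⟩ := hS
  obtain ⟨κ, _, _, h, rfl⟩ := hT
  refine ⟨ι × κ, inferInstance, inferInstance, fun p => g p.1 * h p.2, ?_⟩
  ext x
  rw [LinearMap.comp_apply, av_apply, av_apply, av_apply, Fintype.card_prod, Fintype.sum_prod_type]
  push_cast
  rw [mul_inv, mul_smul]
  congr 1
  have h : ∀ i : ι, (g i : B) * (((Fintype.card κ : ℂ))⁻¹ •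
      ∑ k, (h k : B) * x * star (h k : B)) * star (g i : B) =
      ((Fintype.card κ : ℂ))⁻¹ • ∑ k, ((g i * h k : unitary B) : B) * x *
        star ((g i * h k : unitary B) : B) := by
    intro i
    rw [mul_smul_comm, smul_mul_assoc, Finset.mul_sum, Finset.sum_mul]
    congr 1
    refine Finset.sum_congr rfl fun j _ => ?_
    rw [Submonoid.coe_mul, star_mul]
    simp only [mul_assoc]
  simp only [h]
  rw [← Finset.smul_sum]
  rfl

theorem isAv_conj (u : unitary B) : IsAv (av fun _ : Unit => u) :=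
  ⟨Unit, inferInstance, inferInstance, _, rfl⟩

theorem av_conj_apply (u : unitary B) (x : B) :
    av (fun _ : Unit => u) x = (u : B) * x * star (u : B) := by
  simp [av_apply]

theorem IsAv.map_scalar {T : B →ₗ[ℂ] B} (hT : IsAv T) (c : ℂ) :
    T (algebraMap ℂ B c) = algebraMap ℂ B c := by
  obtain ⟨ι, _, _, g, rfl⟩ := hT
  rw [av_apply]
  have h : ∀ k, (g k : B) * algebraMap ℂ B c * star (g k : B) = algebraMap ℂ B c := by
    intro k
    rw [← Algebra.commutes, mul_assoc, Unitary.mul_star_self_of_mem (g k).2, mul_one]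
  simp only [h, Finset.sum_const, Finset.card_univ]
  rw [← Nat.cast_smul_eq_nsmul ℂ, smul_smul, inv_mul_cancel₀, one_smul]
  exact_mod_cast Fintype.card_ne_zero

theorem IsAv.norm_le {T : B →ₗ[ℂ] B} (hT : IsAv T) (x : B) : ‖T x‖ ≤ ‖x‖ := by
  obtain ⟨ι, _, _, g, rfl⟩ := hT
  rw [av_apply, norm_smul, norm_inv, Complex.norm_natCast]
  have h1 : ‖∑ k, (g k : B) * x * star (g k : B)‖ ≤ ∑ _k : ι, ‖x‖ := by
    refine norm_sum_le_of_le _ fun k _ => ?_
    rw [CStarRing.norm_mul_mem_unitary _ (Unitary.star_mem (g k).2),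
      CStarRing.norm_mem_unitary_mul _ (g k).2]
  rw [Finset.sum_const, Finset.card_univ, nsmul_eq_mul] at h1
  have hc : (0 : ℝ) < Fintype.card ι := by exact_mod_cast Fintype.card_pos
  calc (Fintype.card ι : ℝ)⁻¹ * ‖∑ k, (g k : B) * x * star (g k : B)‖
      ≤ (Fintype.card ι : ℝ)⁻¹ * (Fintype.card ι * ‖x‖) := by gcongr
    _ = ‖x‖ := by field_simp

theorem IsAv.selfAdjoint {T : B →ₗ[ℂ] B} (hT : IsAv T) {x : B} (hx : IsSelfAdjoint x) :
    IsSelfAdjoint (T x) := by
  obtain ⟨ι, _, _, g, rfl⟩ := hT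
  rw [av_apply, isSelfAdjoint_iff, star_smul, star_sum]
  congr 1
  · simp
  · refine Finset.sum_congr rfl fun k _ => ?_
    rw [star_mul, star_mul, star_star, hx.star_eq, mul_assoc]

theorem IsAv.nonneg [PartialOrder B] [StarOrderedRing B] {T : B →ₗ[ℂ] B} (hT : IsAv T) {x : B}
    (hx : 0 ≤ x) : 0 ≤ T x := by
  obtain ⟨ι, _, _, g, rfl⟩ := hT
  rw [av_apply]
  have h1 : (0 : B) ≤ ∑ k, (g k : B) * x * star (g k : B) :=
    Finset.sum_nonneg fun k _ => star_right_conjugate_nonneg hx _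
  have h2 : ((Fintype.card ι : ℂ))⁻¹ = (((Fintype.card ι : ℝ)⁻¹ : ℝ) : ℂ) := by push_cast; rfl
  rw [h2, Complex.coe_smul]
  exact smul_nonneg (by positivity) h1

theorem avgConst_iff {a : B} {c : ℝ} : AvgConst a c ↔
    ∀ ε : ℝ, 0 < ε → ∃ T : B →ₗ[ℂ] B, IsAv T ∧ ‖T a - algebraMap ℂ B (c : ℂ)‖ ≤ ε := by
  constructor
  · intro h ε hε
    obtain ⟨N, g, hg⟩ := h ε hε
    exact ⟨av g, isAv_fin N g, by rw [av_fin_apply]; exact hg⟩
  · intro h ε hε
    obtain ⟨T, hT, hTa⟩ := h ε hε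
    obtain ⟨N, g, hg⟩ := hT.fin
    exact ⟨N, g, by rw [← hg]; exact hTa⟩

theorem avgConst_of_av {T : B →ₗ[ℂ] B} (hT : IsAv T) {a : B} {c : ℝ} (h : AvgConst (T a) c) :
    AvgConst a c := by
  rw [avgConst_iff] at h ⊢
  intro ε hε
  obtain ⟨S, hS, hSa⟩ := h ε hε
  exact ⟨S ∘ₗ T, hS.comp hT, hSa⟩

theorem avgConst_smul {a : B} {c : ℝ} (h : AvgConst a c) (r : ℝ) : AvgConst (r • a) (r * c) := by
  rw [avgConst_iff] at h ⊢
  intro ε hε
  obtain ⟨T, hT, hTa⟩ := h (ε / (|r| + 1)) (by positivity)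
  refine ⟨T, hT, ?_⟩
  have e1 : T (r • a) - algebraMap ℂ B ((r * c : ℝ) : ℂ) =
      (r : ℂ) • (T a - algebraMap ℂ B (c : ℂ)) := by
    rw [smul_sub, ← Complex.coe_smul, map_smul, Complex.ofReal_mul, map_mul, ← Algebra.smul_def]
  rw [e1, norm_smul, Complex.norm_real, Real.norm_eq_abs]
  calc |r| * ‖T a - algebraMap ℂ B (c : ℂ)‖ ≤ |r| * (ε / (|r| + 1)) := by gcongr
    _ ≤ (|r| + 1) * (ε / (|r| + 1)) := by gcongr; linarith
    _ = ε := by field_simp

theorem avgConst_scalar (r : ℝ) : AvgConst (algebraMap ℂ B (r : ℂ)) r := by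
  rw [avgConst_iff]
  intro ε hε
  refine ⟨av fun _ : Unit => 1, isAv_conj 1, ?_⟩
  rw [(isAv_conj (1 : unitary B)).map_scalar, sub_self, norm_zero]
  exact hε.le

theorem avgConst_neg_bound [PartialOrder B] [StarOrderedRing B] [Nontrivial B] {a : B} {c : ℝ}
    (ha : 0 ≤ a) (h : AvgConst a c) : 0 ≤ c := by
  rw [avgConst_iff] at h
  refine le_of_forall_pos_le_add fun ε hε => ?_
  obtain ⟨T, hT, hTa⟩ := h ε hε
  by_contra hc
  push Not at hc
  have hc' : ε < -c := by linarith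
  have hnn := hT.nonneg ha
  have h1 : algebraMap ℝ B (-c) ≤ T a - algebraMap ℂ B (c : ℂ) := by
    have e : T a - algebraMap ℂ B (c : ℂ) = T a + algebraMap ℝ B (-c) := by
      rw [map_neg, sub_eq_add_neg]
      congr 2
    rw [e]
    exact le_add_of_nonneg_left hnn
  have h0 : (0 : B) ≤ algebraMap ℝ B (-c) := by
    rw [Algebra.algebraMap_eq_smul_one]
    exact smul_nonneg (by linarith) zero_le_one
  have h2 := CStarAlgebra.norm_le_norm_of_nonneg_of_le h0 h1
  rw [norm_algebraMap', Real.norm_eq_abs, abs_of_pos (by linarith)] at h2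
  linarith

/-- The hypothesis: unique averaging constants. -/
def HU (B : Type) [CStarAlgebra B] : Prop := ∀ a : B, IsSelfAdjoint a → ∃! c : ℝ, AvgConst a c

theorem avgConst_add (hU : HU B) {a b : B} (hb : IsSelfAdjoint b)
    {α β : ℝ} (h1 : AvgConst a α) (h2 : AvgConst b β) : AvgConst (a + b) (α + β) := by
  rw [avgConst_iff] at h1 ⊢
  intro ε hε
  obtain ⟨T, hT, hTa⟩ := h1 (ε / 2) (by positivity)
  obtain ⟨γ, hγ, -⟩ := hU (T b) (hT.selfAdjoint hb)
  have hγ' : γ = β := (hU b hb).unique (avgConst_of_av hT hγ) h2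
  rw [hγ'] at hγ
  obtain ⟨S, hS, hSb⟩ := avgConst_iff.1 hγ (ε / 2) (by positivity)
  refine ⟨S ∘ₗ T, hS.comp hT, ?_⟩
  have e : (S ∘ₗ T) (a + b) - algebraMap ℂ B ((α + β : ℝ) : ℂ) =
      S (T a - algebraMap ℂ B (α : ℂ)) + (S (T b) - algebraMap ℂ B (β : ℂ)) := by
    rw [LinearMap.comp_apply, map_add, map_add, map_sub, hS.map_scalar, Complex.ofReal_add,
      map_add]
    abel
  rw [e]
  calc ‖S (T a - algebraMap ℂ B (α : ℂ)) + (S (T b) - algebraMap ℂ B (β : ℂ))‖
      ≤ ‖S (T a - algebraMap ℂ B (α : ℂ))‖ + ‖S (T b) - algebraMap ℂ B (β : ℂ)‖ :=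
        norm_add_le _ _
    _ ≤ ε / 2 + ε / 2 := add_le_add ((hS.norm_le _).trans hTa) hSb
    _ = ε := by ring

/-- The constant as a real linear functional. -/
def cL (hU : HU B) : selfAdjoint B →ₗ[ℝ] ℝ where
  toFun a := (hU a a.2).choose
  map_add' a b := by
    have ha := (hU a a.2).choose_spec.1
    have hb := (hU b b.2).choose_spec.1
    have hab := (hU (a + b : selfAdjoint B) (a + b).2).choose_spec.1
    refine (hU _ (a + b).2).unique hab ?_
    rw [AddSubgroup.coe_add]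
    exact avgConst_add hU b.2 ha hb
  map_smul' r a := by
    have ha := (hU a a.2).choose_spec.1
    have hra := (hU (r • a : selfAdjoint B) (r • a).2).choose_spec.1
    refine (hU _ (r • a).2).unique hra ?_
    rw [selfAdjoint.val_smul]
    exact avgConst_smul ha r

theorem cL_spec (hU : HU B) (a : selfAdjoint B) : AvgConst (a : B) (cL hU a) :=
  (hU a a.2).choose_spec.1

theorem cL_eq (hU : HU B) (a : selfAdjoint B) {c : ℝ} (h : AvgConst (a : B) c) : cL hU a = c :=
  (hU a a.2).unique (cL_spec hU a) h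

/-- The trace. -/
def tau (hU : HU B) : B →ₗ[ℂ] ℂ where
  toFun x := (cL hU (ℜ x) : ℂ) + Complex.I * (cL hU (ℑ x) : ℂ)
  map_add' x y := by
    rw [map_add, map_add, map_add, map_add]
    push_cast
    ring
  map_smul' z x := by
    rw [realPart_smul, imaginaryPart_smul, map_sub, map_add, map_smul, map_smul, map_smul,
      map_smul, RingHom.id_apply]
    simp only [smul_eq_mul]
    push_cast
    conv_rhs => rw [← Complex.re_add_im z]
    ring_nf
    rw [Complex.I_sq]
    ring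

theorem tau_sa (hU : HU B) {a : B} (ha : IsSelfAdjoint a) : tau hU a = (cL hU ⟨a, ha⟩ : ℂ) := by
  change (cL hU (ℜ a) : ℂ) + Complex.I * (cL hU (ℑ a) : ℂ) = _
  have h1 : ℜ a = ⟨a, ha⟩ := by
    ext
    exact ha.coe_realPart
  rw [ha.imaginaryPart, map_zero, h1]
  simp

theorem tau_conj_sa (hU : HU B) {a : B} (ha : IsSelfAdjoint a) (u : unitary B) :
    tau hU ((u : B) * a * star (u : B)) = tau hU a := by
  have h1 : IsSelfAdjoint ((u : B) * a * star (u : B)) := by
    have := (isAv_conj u).selfAdjoint ha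
    rwa [av_conj_apply] at this
  rw [tau_sa hU ha, tau_sa hU h1]
  congr 1
  symm
  refine cL_eq hU _ ?_
  refine avgConst_of_av (isAv_conj u) ?_
  rw [av_conj_apply]
  exact cL_spec hU ⟨_, h1⟩

theorem tau_conj (hU : HU B) (x : B) (u : unitary B) :
    tau hU ((u : B) * x * star (u : B)) = tau hU x := by
  have hx : ((ℜ x : selfAdjoint B) : B) + Complex.I • ((ℑ x : selfAdjoint B) : B) = x :=
    realPart_add_I_smul_imaginaryPart x
  rw [← hx, mul_add, add_mul, mul_smul_comm, smul_mul_assoc, map_add, map_add, map_smul, map_smul,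
    tau_conj_sa hU (ℜ x).2, tau_conj_sa hU (ℑ x).2]

theorem tau_comm (hU : HU B) (a b : B) : tau hU (a * b) = tau hU (b * a) := by
  have ha : a ∈ Submodule.span ℂ (unitary B : Set B) := by
    rw [CStarAlgebra.span_unitary]
    trivial
  induction ha using Submodule.span_induction with
  | mem g hg =>
    have h := tau_conj hU (b * g) ⟨g, hg⟩
    rw [← h]
    congr 1
    simp only [mul_assoc]
    rw [Unitary.mul_star_self_of_mem hg, mul_one]
  | zero => simp
  | add x y _ _ h1 h2 => rw [add_mul, mul_add, map_add, map_add, h1, h2]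
  | smul z x _ h1 => rw [smul_mul_assoc, mul_smul_comm, map_smul, map_smul, h1]

end av

end ZF3

open ZF3 in
theorem dp_Ftrace : F_trace := by
  intro B _ _ _ _ hU
  refine ⟨tau hU, ⟨?_, ?_, tau_comm hU⟩, ?_⟩
  · have h1 : IsSelfAdjoint (1 : B) := .one B
    rw [tau_sa hU h1, cL_eq hU ⟨1, h1⟩ (c := 1) ?_]
    · simp
    · have h := avgConst_scalar (B := B) 1
      simpa using h
  · intro a
    have h0 : (0 : B) ≤ star a * a := star_mul_self_nonneg a
    have h1 : IsSelfAdjoint (star a * a) := IsSelfAdjoint.star_mul_self a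
    rw [tau_sa hU h1]
    have := avgConst_neg_bound h0 (cL_spec hU ⟨_, h1⟩)
    exact_mod_cast this
  · intro a ha ε hε
    rw [tau_sa hU ha]
    exact cL_spec hU ⟨a, ha⟩ ε hε

end H710R2.DP
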